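import Mathlib
import Pool.Agent.S07531

set_option autoImplicit false

namespace Pool.Agent.Results.MP_bc0e65_co.PeriodFiveEight

/-- Some misère quotient has an element of period exactly `p`.  Components form a type `α` with a
well-founded option relation `opt b a` (`b` is an option of `a`) with finitely many options each;
positions are multisets of components (disjunctive sums), a move replaces one component by one of
its options, `P` is the set of misère P-positions (a position is P iff some move exists and every
move leads to a non-P position), and `n • g` and `(n + q) • g` are compared modulo every sum `X`. -/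
def HasPeriod (p : ℕ) : Prop :=
  ∃ (α : Type) (opt : α → α → Prop), WellFounded opt ∧
    (∀ a : α, {b : α | opt b a}.Finite) ∧
    ∃ P : Multiset α → Prop,
      (∀ s : Multiset α, P s ↔
        ((∃ a : α, ∃ t : Multiset α, ∃ b : α, s = a ::ₘ t ∧ opt b a) ∧
          ∀ a : α, ∀ t : Multiset α, ∀ b : α, s = a ::ₘ t → opt b a → ¬ P (b ::ₘ t))) ∧
      ∃ g : Multiset α,
        (∃ n : ℕ, ∀ X : Multiset α, (P (n • g + X) ↔ P ((n + p) • g + X))) ∧
        ∀ q : ℕ, 0 < q → q < p →
          ¬ ∃ n : ℕ, ∀ X : Multiset α, (P (n • g + X) ↔ P ((n + q) • g + X))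

theorem result : HasPeriod 5 ∧ HasPeriod 8 :=
  ⟨Pool.Agent.S07531.result 5 (by norm_num), Pool.Agent.S07531.result 8 (by norm_num)⟩

end Pool.Agent.Results.MP_bc0e65_co.PeriodFiveEight
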